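import Pool.Agent.Q282.TW.Stm

set_option autoImplicit false

open Polynomial

namespace Q190.TW

open Q282TW

section

variable {k : Type} [Field k]

theorem deg_pol {n : ℕ} (c : Fin n → k) : (pol c).degree < n := by
  unfold pol
  exact Polynomial.degree_sum_fin_lt c

theorem mon_monic {n : ℕ} (c : Fin n → k) : (mon c).Monic := by
  unfold mon
  exact Polynomial.monic_X_pow_add (deg_pol c)

theorem mon_natDegree {n : ℕ} (c : Fin n → k) : (mon c).natDegree = n := by
  unfold mon
  apply Polynomial.natDegree_eq_of_degree_eq_some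
  rw [Polynomial.degree_add_eq_left_of_degree_lt]
  · exact Polynomial.degree_X_pow n
  · rw [Polynomial.degree_X_pow]
    exact deg_pol c

theorem pol_coeff {n : ℕ} (c : Fin n → k) (i : Fin n) : (pol c).coeff i = c i := by
  unfold pol
  rw [Polynomial.finsetSum_coeff]
  rw [Finset.sum_eq_single i]
  · simp
  · intro b _ hb
    rw [Polynomial.coeff_C_mul, Polynomial.coeff_X_pow, if_neg, mul_zero]
    intro h
    exact hb (Fin.ext h.symm)
  · intro h
    exact absurd (Finset.mem_univ i) h

theorem mon_coeff {n : ℕ} (c : Fin n → k) (i : Fin n) : (mon c).coeff i = c i := by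
  unfold mon
  rw [Polynomial.coeff_add, pol_coeff, Polynomial.coeff_X_pow, if_neg (by have := i.2; omega), zero_add]

theorem mon_inj {n : ℕ} {c d : Fin n → k} (h : mon c = mon d) : c = d := by
  funext i
  rw [← mon_coeff c i, ← mon_coeff d i, h]

/-- the coefficients of a polynomial -/
def cf (n : ℕ) (D : k[X]) : Fin n → k := fun i => D.coeff i

theorem mon_cf {n : ℕ} {D : k[X]} (hD : D.Monic) (hn : D.natDegree = n) : mon (cf n D) = D := by
  subst hn
  conv_rhs => rw [hD.as_sum]
  unfold mon pol cf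
  rw [Finset.sum_range]

theorem exch [Fintype k] [DecidableEq k] {n a : ℕ} (ha : 2 * a ≤ n) (e : Fin a → k) (h : k[X] → ℂ)
    [∀ c : Fin n → k, Decidable (mon e ^ 2 ∣ mon c)] :
    ∑ c : Fin n → k, (if mon e ^ 2 ∣ mon c then h (mon c) else 0) =
      ∑ b : Fin (n - 2 * a) → k, h (mon e ^ 2 * mon b) := by
  have hmon : ∀ b : Fin (n - 2 * a) → k, (mon e ^ 2 * mon b).Monic := fun b =>
    ((mon_monic e).pow 2).mul (mon_monic b)
  have hdeg : ∀ b : Fin (n - 2 * a) → k, (mon e ^ 2 * mon b).natDegree = n := by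
    intro b
    rw [((mon_monic e).pow 2).natDegree_mul (mon_monic b), (mon_monic e).natDegree_pow,
      mon_natDegree, mon_natDegree]
    omega
  rw [← Finset.sum_filter]
  symm
  refine Finset.sum_bij (fun b _ => cf n (mon e ^ 2 * mon b)) ?_ ?_ ?_ ?_
  · intro b _
    rw [Finset.mem_filter]
    refine ⟨Finset.mem_univ _, ?_⟩
    rw [mon_cf (hmon b) (hdeg b)]
    exact dvd_mul_right _ _
  · intro b _ b' _ hbb
    have h1 : mon (cf n (mon e ^ 2 * mon b)) = mon (cf n (mon e ^ 2 * mon b')) := by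
      rw [hbb]
    rw [mon_cf (hmon b) (hdeg b), mon_cf (hmon b') (hdeg b')] at h1
    exact mon_inj (mul_left_cancel₀ ((mon_monic e).pow 2).ne_zero h1)
  · intro c hc
    rw [Finset.mem_filter] at hc
    obtain ⟨B, hB⟩ := hc.2
    have hBm : B.Monic := by
      have h1 := mon_monic c
      rw [hB] at h1
      exact ((mon_monic e).pow 2).of_mul_monic_left h1
    have hBd : B.natDegree = n - 2 * a := by
      have h1 := mon_natDegree c
      rw [hB, ((mon_monic e).pow 2).natDegree_mul hBm, (mon_monic e).natDegree_pow,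
        mon_natDegree] at h1
      omega
    refine ⟨cf _ B, Finset.mem_univ _, ?_⟩
    apply mon_inj
    rw [mon_cf (hmon _) (hdeg _), mon_cf hBm hBd, hB]
  · intro b _
    rw [mon_cf (hmon b) (hdeg b)]


section nf

variable [DecidableEq k]

/-- the Moebius function -/
noncomputable def mu [DecidablePred (fun A : k[X] => Squarefree A)] (A : k[X]) : ℂ :=
  if Squarefree A then (-1) ^ (UniqueFactorizationMonoid.normalizedFactors A).card else 0

theorem norm_mu [DecidablePred (fun A : k[X] => Squarefree A)] (A : k[X]) : ‖mu A‖ ≤ 1 := by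
  unfold mu
  split_ifs
  · rw [norm_pow, norm_neg, norm_one, one_pow]
  · simp

theorem nf_prod (T : Finset k[X]) (hT : ∀ P ∈ T, P.Monic ∧ Irreducible P) :
    UniqueFactorizationMonoid.normalizedFactors (∏ P ∈ T, P) = T.val := by
  have e1 : ∏ P ∈ T, P = T.val.prod := by
    rw [Finset.prod_eq_multiset_prod, Multiset.map_id']
  rw [e1, UniqueFactorizationMonoid.normalizedFactors_prod_eq _ (fun p hp => (hT p hp).2)]
  conv_rhs => rw [← Multiset.map_id T.val]
  refine Multiset.map_congr rfl (fun p hp => ?_)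
  exact (hT p hp).1.normalize_eq_self

theorem prod_nf {A : k[X]} (hA : A.Monic) :
    (UniqueFactorizationMonoid.normalizedFactors A).prod = A := by
  rw [UniqueFactorizationMonoid.prod_normalizedFactors_eq hA.ne_zero, hA.normalize_eq_self]

theorem mem_nf {A P : k[X]} (h : P ∈ UniqueFactorizationMonoid.normalizedFactors A) :
    P.Monic ∧ Irreducible P := by
  have h1 := UniqueFactorizationMonoid.irreducible_of_normalized_factor P h
  refine ⟨?_, h1⟩
  rw [← UniqueFactorizationMonoid.normalize_normalized_factor P h]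
  exact Polynomial.monic_normalize h1.ne_zero

theorem cop {P Q : k[X]} (hP : P.Monic ∧ Irreducible P) (hQ : Q.Monic ∧ Irreducible Q)
    (h : P ≠ Q) : IsCoprime P Q := by
  rw [hP.2.coprime_iff_not_dvd]
  intro hd
  apply h
  exact Polynomial.eq_of_monic_of_associated hP.1 hQ.1 ((hP.2.dvd_irreducible_iff_associated hQ.2).mp hd)

/-- the monic irreducible polynomials whose squares divide `D` -/
noncomputable def P2 (D : k[X]) [DecidablePred (fun P : k[X] => P ^ 2 ∣ D)] : Finset k[X] :=
  (UniqueFactorizationMonoid.normalizedFactors D).toFinset.filter (fun P => P ^ 2 ∣ D)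

theorem mem_P2 {D : k[X]} [DecidablePred (fun P : k[X] => P ^ 2 ∣ D)] (hD : D.Monic) {P : k[X]} :
    P ∈ P2 D ↔ (P.Monic ∧ Irreducible P) ∧ P ^ 2 ∣ D := by
  unfold P2
  rw [Finset.mem_filter, Multiset.mem_toFinset]
  refine ⟨fun h => ⟨mem_nf h.1, h.2⟩, fun h => ⟨?_, h.2⟩⟩
  obtain ⟨Q, hQ, hPQ⟩ := UniqueFactorizationMonoid.exists_mem_normalizedFactors_of_dvd hD.ne_zero
    h.1.2 ((dvd_pow_self P two_ne_zero).trans h.2)
  rw [Polynomial.eq_of_monic_of_associated h.1.1 (mem_nf hQ).1 hPQ]
  exact hQ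

theorem P2_empty {D : k[X]} [DecidablePred (fun P : k[X] => P ^ 2 ∣ D)] (hD : D.Monic) :
    P2 D = ∅ ↔ Squarefree D := by
  rw [squarefree_iff_irreducible_sq_not_dvd_of_ne_zero hD.ne_zero]
  constructor
  · intro h x hx hxx
    have h1 : normalize x ∈ P2 D := by
      rw [mem_P2 hD]
      refine ⟨⟨Polynomial.monic_normalize hx.ne_zero, ?_⟩, ?_⟩
      · exact (normalize_associated x).symm.irreducible hx
      · rw [pow_two]
        exact ((normalize_associated x).mul_mul (normalize_associated x)).dvd.trans hxx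
    rw [h] at h1
    exact absurd h1 (Finset.notMem_empty _)
  · intro h
    rw [Finset.eq_empty_iff_forall_notMem]
    intro P hP
    rw [mem_P2 hD] at hP
    exact h P hP.1.2 (by rw [← pow_two]; exact hP.2)

theorem prod_sq_dvd {D : k[X]} [DecidablePred (fun P : k[X] => P ^ 2 ∣ D)] (hD : D.Monic)
    {T : Finset k[X]} (hT : T ⊆ P2 D) : (∏ P ∈ T, P) ^ 2 ∣ D := by
  rw [← Finset.prod_pow]
  apply Finset.prod_dvd_of_coprime
  · intro P hP Q hQ hPQ
    exact (cop ((mem_P2 hD).mp (hT hP)).1 ((mem_P2 hD).mp (hT hQ)).1 hPQ).pow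
  · intro P hP
    exact ((mem_P2 hD).mp (hT hP)).2

theorem monic_prod' {T : Finset k[X]} (hT : ∀ P ∈ T, P.Monic ∧ Irreducible P) :
    (∏ P ∈ T, P).Monic := Polynomial.monic_prod_of_monic _ _ (fun P hP => (hT P hP).1)

theorem mu_sum [Fintype k] [DecidablePred (fun A : k[X] => Squarefree A)] {D : k[X]}
    [∀ A : k[X], Decidable (A ^ 2 ∣ D)] (hD : D.Monic) :
    ∑ a ∈ Finset.range (D.natDegree / 2 + 1), ∑ e : Fin a → k,
      (if mon e ^ 2 ∣ D then mu (mon e) else 0) = if Squarefree D then 1 else 0 := by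
  have h1 : ∑ T ∈ (P2 D).powerset, ((-1 : ℂ)) ^ T.card = if Squarefree D then 1 else 0 := by
    have h2 := Finset.sum_powerset_neg_one_pow_card (x := P2 D)
    have h3 : ((∑ m ∈ (P2 D).powerset, (-1 : ℤ) ^ m.card : ℤ) : ℂ) =
        ∑ T ∈ (P2 D).powerset, ((-1 : ℂ)) ^ T.card := by
      push_cast
      rfl
    rw [← h3, h2]
    by_cases h : Squarefree D
    · rw [if_pos h, if_pos ((P2_empty hD).mpr h)]
      norm_num
    · rw [if_neg h, if_neg (fun h' => h ((P2_empty hD).mp h'))]
      norm_num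
  rw [← h1]
  rw [Finset.sum_sigma', ← Finset.sum_filter_ne_zero]
  symm
  have hmem : ∀ T ∈ (P2 D).powerset, ∀ P ∈ T, P.Monic ∧ Irreducible P := fun T hT P hP =>
    ((mem_P2 hD).mp ((Finset.mem_powerset.mp hT) hP)).1
  have hmon : ∀ T ∈ (P2 D).powerset, mon (cf (∏ P ∈ T, P).natDegree (∏ P ∈ T, P)) = ∏ P ∈ T, P :=
    fun T hT => mon_cf (monic_prod' (hmem T hT)) rfl
  have hsq : ∀ T ∈ (P2 D).powerset, Squarefree (∏ P ∈ T, P) := by
    intro T hT
    rw [UniqueFactorizationMonoid.squarefree_iff_nodup_normalizedFactors (monic_prod' (hmem T hT)).ne_zero,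
      nf_prod T (hmem T hT)]
    exact T.nodup
  have hmu : ∀ T ∈ (P2 D).powerset, mu (∏ P ∈ T, P) = (-1) ^ T.card := by
    intro T hT
    unfold mu
    rw [if_pos (hsq T hT), nf_prod T (hmem T hT)]
    rfl
  refine Finset.sum_bij (fun T _ => (⟨(∏ P ∈ T, P).natDegree, cf _ (∏ P ∈ T, P)⟩ :
    (a : ℕ) × (Fin a → k))) ?_ ?_ ?_ ?_
  · intro T hT
    have hd : (∏ P ∈ T, P) ^ 2 ∣ D := prod_sq_dvd hD (Finset.mem_powerset.mp hT)
    rw [Finset.mem_filter, Finset.mem_sigma]
    refine ⟨⟨?_, Finset.mem_univ _⟩, ?_⟩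
    · rw [Finset.mem_range]
      have := Polynomial.natDegree_le_of_dvd hd hD.ne_zero
      rw [Polynomial.natDegree_pow] at this
      show (∏ P ∈ T, P).natDegree < _
      omega
    · show (if mon (cf (∏ P ∈ T, P).natDegree (∏ P ∈ T, P)) ^ 2 ∣ D then
        mu (mon (cf (∏ P ∈ T, P).natDegree (∏ P ∈ T, P))) else 0) ≠ 0
      rw [hmon T hT, if_pos hd, hmu T hT]
      exact pow_ne_zero _ (by norm_num)
  · intro T hT T' hT' h
    have h2 : ∏ P ∈ T, P = ∏ P ∈ T', P := by
      rw [← hmon T hT, ← hmon T' hT']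
      have := congrArg (fun x : (a : ℕ) × (Fin a → k) => mon x.2) h
      exact this
    have h3 := nf_prod T (hmem T hT)
    rw [h2, nf_prod T' (hmem T' hT')] at h3
    exact (Finset.val_injective h3).symm
  · rintro ⟨a, e⟩ hae
    rw [Finset.mem_filter, Finset.mem_sigma] at hae
    obtain ⟨⟨_, _⟩, h3⟩ := hae
    have h4 : mon e ^ 2 ∣ D := by
      by_contra hc
      exact h3 (if_neg hc)
    have h5 : mu (mon e) ≠ 0 := by
      intro hc
      apply h3
      show (if mon e ^ 2 ∣ D then mu (mon e) else 0) = 0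
      rw [if_pos h4, hc]
    have h6 : Squarefree (mon e) := by
      by_contra hc
      exact h5 (if_neg hc)
    have h7 := (UniqueFactorizationMonoid.squarefree_iff_nodup_normalizedFactors (mon_monic e).ne_zero).mp h6
    have h8 : ∏ P ∈ (UniqueFactorizationMonoid.normalizedFactors (mon e)).toFinset, P = mon e := by
      rw [Finset.prod_eq_multiset_prod, Multiset.toFinset_val, h7.dedup, Multiset.map_id',
        prod_nf (mon_monic e)]
    refine ⟨(UniqueFactorizationMonoid.normalizedFactors (mon e)).toFinset, ?_, ?_⟩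
    · rw [Finset.mem_powerset]
      intro P hP
      rw [Multiset.mem_toFinset] at hP
      rw [mem_P2 hD]
      exact ⟨mem_nf hP, (pow_dvd_pow_of_dvd
        (UniqueFactorizationMonoid.dvd_of_mem_normalizedFactors hP) 2).trans h4⟩
    · rw [h8]
      have hdeg : (mon e).natDegree = a := mon_natDegree e
      generalize hg : mon e = g at *
      subst hdeg
      congr 1
      apply mon_inj
      rw [hg, mon_cf (by rw [← hg]; exact mon_monic e) rfl]
  · intro T hT
    show _ = (if mon (cf (∏ P ∈ T, P).natDegree (∏ P ∈ T, P)) ^ 2 ∣ D then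
        mu (mon (cf (∏ P ∈ T, P).natDegree (∏ P ∈ T, P))) else 0)
    rw [hmon T hT, if_pos (prod_sq_dvd hD (Finset.mem_powerset.mp hT)), hmu T hT]

end nf

end

/-- JOB SQF -/
theorem sqf : S_sqf := by
  classical
  intro k _ _
  refine ⟨mu, norm_mu, ?_⟩
  intro n h
  have h1 : ∀ c : Fin n → k, (if Squarefree (mon c) then h (mon c) else 0) =
      ∑ a ∈ Finset.range (n / 2 + 1), ∑ e : Fin a → k,
        mu (mon e) * (if mon e ^ 2 ∣ mon c then h (mon c) else 0) := by
    intro c
    have h2 := mu_sum (mon_monic c)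
    rw [mon_natDegree] at h2
    have h3 : (if Squarefree (mon c) then h (mon c) else 0) =
        (if Squarefree (mon c) then (1 : ℂ) else 0) * h (mon c) := by
      split_ifs <;> simp
    rw [h3, ← h2, Finset.sum_mul]
    refine Finset.sum_congr rfl (fun a _ => ?_)
    rw [Finset.sum_mul]
    refine Finset.sum_congr rfl (fun e _ => ?_)
    split_ifs <;> simp
  rw [Finset.sum_congr rfl (fun c _ => h1 c), Finset.sum_comm]
  refine Finset.sum_congr rfl (fun a ha => ?_)
  rw [Finset.sum_comm]
  refine Finset.sum_congr rfl (fun e _ => ?_)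
  rw [← Finset.mul_sum, exch (by rw [Finset.mem_range] at ha; omega)]

end Q190.TW

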